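import Pool.Agent.Q208.EU.Sch

/-!
# Finitely presented E-unitary inverse monoids with virtually free group image are tree-like

The inverse monoid `Inv⟨A | R⟩` is `Pool.Agent.Q38.IM.InvMon R`, its Schützenberger graphs are
`Pool.Agent.Q38.IM.schutz x`.
-/

set_option autoImplicit false

namespace Pool.Agent.Results.MP_c7c9a4_al.VirtuallyFreeTreeLike

open Pool.Agent.Q38.IM

/-- the quotient by the congruence `r` is a group -/
def IsGroupCon {M : Type} [Monoid M] (r : Con M) : Prop :=
  ∀ x : M, ∃ y : M, r (x * y) 1 ∧ r (y * x) 1

/-- `σ`: the least congruence whose quotient is a group -/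
def sigma (M : Type) [Monoid M] : Con M := sInf {r | IsGroupCon r}

theorem sigma_iff {M : Type} [Monoid M] {x y : M} :
    sigma M x y ↔ ∀ r : Con M, IsGroupCon r → r x y := by
  constructor
  · intro h r hr
    exact h r hr
  · intro h r hr
    exact h r hr

variable {A : Type} (R : Set (Word A × Word A))

theorem group_inv {r : Con (InvMon R)} (hr : IsGroupCon r) (w z : Word A)
    (h : val R w * val R z * val R w = val R w) : r (val R w * val R z) 1 := by
  obtain ⟨y, hy, -⟩ := hr (val R w)
  have h1 : r (val R w * val R z * val R w * y) (val R w * y) := by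
    rw [h]; exact r.refl _
  have h2 : r (val R w * val R z * (val R w * y)) (val R w * val R z * 1) :=
    r.mul (r.refl _) hy
  rw [← mul_assoc, mul_one] at h2
  exact r.trans (r.symm h2) (r.trans h1 hy)

theorem sigma_isGroupCon : IsGroupCon (sigma (InvMon R)) := by
  intro x
  obtain ⟨w, rfl⟩ := val_surj x
  refine ⟨val R (invW w), ?_, ?_⟩
  · rw [sigma_iff]
    exact fun r hr => group_inv R hr _ _ (val_reg w)
  · rw [sigma_iff]
    exact fun r hr => group_inv R hr _ _ (val_reg' w)

/-- the maximal group image `M/σ` of `M = Inv⟨A | R⟩` -/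
def MaxGroup : Type := (sigma (InvMon R)).Quotient

instance : Monoid (MaxGroup R) := inferInstanceAs (Monoid (sigma (InvMon R)).Quotient)

/-- the projection to the maximal group image -/
def proj : InvMon R →* MaxGroup R := (sigma (InvMon R)).mk'

theorem proj_surjective : Function.Surjective (proj R) := Con.mk'_surjective

theorem proj_eq {x y : InvMon R} : proj R x = proj R y ↔ sigma (InvMon R) x y := Con.eq _

theorem exists_inv (a : MaxGroup R) : ∃ b : MaxGroup R, b * a = 1 := by
  obtain ⟨x, rfl⟩ := proj_surjective R a
  obtain ⟨y, -, hy⟩ := sigma_isGroupCon R x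
  refine ⟨proj R y, ?_⟩
  rw [← map_mul, ← map_one (proj R), proj_eq]
  exact hy

noncomputable instance : Group (MaxGroup R) :=
  { (inferInstance : Monoid (MaxGroup R)) with
    inv := fun a => (exists_inv R a).choose
    inv_mul_cancel := fun a => (exists_inv R a).choose_spec }

/-- `M = Inv⟨A | R⟩` is `E`-unitary: the `σ`-class of `1` is the set of idempotents -/
def EUnitary : Prop := ∀ x : InvMon R, sigma (InvMon R) x 1 ↔ x * x = x

/-- a group with a free subgroup of finite index -/
def VirtuallyFree (G : Type) [Group G] : Prop :=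
  ∃ H : Subgroup G, H.FiniteIndex ∧ IsFreeGroup H

/-- **Main result.** A finitely presented `E`-unitary inverse monoid `M` with `M/σ` virtually free
is tree-like: all of its Schützenberger graphs are quasi-isometric to trees. -/
theorem result {A : Type} [Finite A] (R : Set (Word A × Word A)) (hR : R.Finite)
    (hE : EUnitary R) (hvf : VirtuallyFree (MaxGroup R)) : TreeLike R := by
  obtain ⟨H, hH, hfree⟩ := hvf
  refine Pool.Agent.Q208.EU.main (proj R) hR (proj_surjective R) (fun x hx => ?_) H hH hfree
  rw [← map_one (proj R), proj_eq] at hx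
  exact (hE x).1 hx

end Pool.Agent.Results.MP_c7c9a4_al.VirtuallyFreeTreeLike
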